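import Mathlib

set_option autoImplicit false

namespace Pool.Agent.Results.MP_769d7c_al.SoNotBo

open Filter Topology

/-! ### Definitions of the problem -/

section Defs

variable {G : Type} [Group G]

/-- The ball `{x} ∪ F x`. -/
def Ball (F : Set G) (x : G) : Set G := {y | y = x ∨ ∃ g ∈ F, y = g * x}

/-- Boundedly oscillating functions for the finitary ballean of `G`. -/
def BoundedlyOscillating (f : G → ℝ) : Prop :=
  ∃ C : ℝ, 0 < C ∧ ∀ F : Set G, F.Finite → ∃ B : Set G, B.Finite ∧
    ∀ x : G, x ∉ B → Metric.diam (f '' Ball F x) < C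

/-- Slowly oscillating functions for the finitary ballean of `G`. -/
def SlowlyOscillating (f : G → ℝ) : Prop :=
  ∀ F : Set G, F.Finite → ∀ ε : ℝ, 0 < ε → ∃ B : Set G, B.Finite ∧
    ∀ x : G, x ∉ B → Metric.diam (f '' Ball F x) < ε

/-- `f` is bounded outside a finite set. -/
def BoundedOffFinite (f : G → ℝ) : Prop :=
  ∃ B : Set G, B.Finite ∧ ∃ M : ℝ, ∀ x : G, x ∉ B → |f x| ≤ M

variable (G) in
/-- The finitary ballean of `G` is bo-bounded. -/
def BoBounded : Prop := ∀ f : G → ℝ, BoundedlyOscillating f → BoundedOffFinite f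

variable (G) in
/-- The finitary ballean of `G` is so-bounded. -/
def SoBounded : Prop := ∀ f : G → ℝ, SlowlyOscillating f → BoundedOffFinite f

lemma ball_finite {F : Set G} (hF : F.Finite) (x : G) : (Ball F x).Finite := by
  have : Ball F x ⊆ {x} ∪ (fun g => g * x) '' F := by
    rintro y (h | ⟨g, hg, h⟩)
    · exact Or.inl h
    · exact Or.inr ⟨g, hg, h.symm⟩
  exact ((Set.finite_singleton x).union (hF.image _)).subset this

lemma dist_lt_of_diam {F : Set G} (hF : F.Finite) {f : G → ℝ} {x : G} {C : ℝ}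
    (h : Metric.diam (f '' Ball F x) < C) {g : G} (hg : g ∈ F) : |f (g * x) - f x| < C := by
  have h1 : dist (f (g * x)) (f x) ≤ Metric.diam (f '' Ball F x) :=
    Metric.dist_le_diam_of_mem ((ball_finite hF x).image f).isBounded
      ⟨_, Or.inr ⟨g, hg, rfl⟩, rfl⟩ ⟨_, Or.inl rfl, rfl⟩
  rw [Real.dist_eq] at h1
  exact lt_of_le_of_lt h1 h

/-- A slowly oscillating function changes little under multiplication by a fixed element. -/
lemma so_tendsto {f : G → ℝ} (hf : SlowlyOscillating f) (g : G) :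
    Tendsto (fun x => f (g * x) - f x) cofinite (𝓝 0) := by
  rw [Metric.tendsto_nhds]
  intro ε hε
  obtain ⟨B, hB, h⟩ := hf {g} (Set.finite_singleton g) ε hε
  have h1 : ∀ᶠ x in cofinite, x ∉ B := hB.eventually_cofinite_notMem
  filter_upwards [h1] with x hx
  rw [Real.dist_eq, sub_zero]
  exact dist_lt_of_diam (Set.finite_singleton g) (h x hx) rfl

end Defs

/-! ### Slowly oscillating functions on uncountable abelian groups -/

section Abelian

variable {K : Type} [AddCommGroup K] [Uncountable K]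

lemma countable_ne {X : Type} {φ : X → ℝ} (h : Tendsto φ cofinite (𝓝 0)) :
    {x | φ x ≠ 0}.Countable := by
  have h1 : {x | φ x ≠ 0} ⊆ ⋃ n : ℕ, {x | ¬ dist (φ x) 0 < 1 / ((n : ℝ) + 1)} := by
    intro x hx
    have h2 : 0 < dist (φ x) 0 := dist_pos.2 hx
    obtain ⟨n, hn⟩ := exists_nat_one_div_lt h2
    exact Set.mem_iUnion.2 ⟨n, not_lt.2 hn.le⟩
  refine Set.Countable.mono h1 (Set.countable_iUnion (fun n => ?_))
  have h2 := Metric.tendsto_nhds.1 h (1 / ((n : ℝ) + 1)) (by positivity)
  exact (Filter.eventually_cofinite.1 h2).countable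

omit [Uncountable K] in
lemma lemA {φ : K → ℝ} (hφ : ∀ a, Tendsto (fun x => φ (a + x) - φ x) cofinite (𝓝 0))
    {z : ℕ → K} (hz : Function.Injective z) :
    ∃ D : Set K, D.Countable ∧ ∀ x, x ∉ D → Tendsto (fun n => φ (z n)) atTop (𝓝 (φ x)) := by
  refine ⟨⋃ n, {x | φ (z n + x) - φ x ≠ 0},
    Set.countable_iUnion (fun n => countable_ne (hφ (z n))), ?_⟩
  intro x hx
  have h1 : ∀ n, φ (z n + x) = φ x := by
    intro n
    by_contra hcon
    exact hx (Set.mem_iUnion.2 ⟨n, sub_ne_zero.2 hcon⟩)
  have h2 : Tendsto z atTop cofinite := by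
    rw [← Nat.cofinite_eq_atTop]
    exact hz.tendsto_cofinite
  have h3 := (hφ x).comp h2
  have h4 : Tendsto (fun n => φ x - (φ (x + z n) - φ (z n))) atTop (𝓝 (φ x - 0)) :=
    tendsto_const_nhds.sub h3
  rw [sub_zero] at h4
  refine h4.congr (fun n => ?_)
  rw [add_comm x (z n), h1 n]
  ring

lemma lemB {φ : K → ℝ} (hφ : ∀ a, Tendsto (fun x => φ (a + x) - φ x) cofinite (𝓝 0)) :
    ∃ c : ℝ, Tendsto φ cofinite (𝓝 c) := by
  have hinf : Infinite K := inferInstance
  obtain ⟨z⟩ : Nonempty (ℕ ↪ K) := ⟨Infinite.natEmbedding K⟩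
  obtain ⟨D, hD, hD'⟩ := lemA hφ z.injective
  obtain ⟨x, hx⟩ : ∃ x, x ∉ D := by
    by_contra hcon
    push Not at hcon
    have : (Set.univ : Set K).Countable := hD.mono (fun x _ => hcon x)
    exact not_countable (Set.countable_univ_iff.1 this)
  refine ⟨φ x, ?_⟩
  rw [Metric.tendsto_nhds]
  intro ε hε
  rw [Filter.eventually_cofinite]
  by_contra hS
  have hS' : {y | ¬ dist (φ y) (φ x) < ε}.Infinite := hS
  let z' : ℕ → K := fun n => (hS'.natEmbedding _ n : K)
  have hz' : Function.Injective z' := by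
    intro m n hmn
    exact (hS'.natEmbedding _).injective (Subtype.ext hmn)
  have hz'' : ∀ n, ¬ dist (φ (z' n)) (φ x) < ε := fun n => (hS'.natEmbedding _ n).2
  obtain ⟨D₂, hD₂, hD₂'⟩ := lemA hφ hz'
  obtain ⟨y, hy⟩ : ∃ y, y ∉ D ∪ D₂ := by
    by_contra hcon
    push Not at hcon
    have : (Set.univ : Set K).Countable := (hD.union hD₂).mono (fun x _ => hcon x)
    exact not_countable (Set.countable_univ_iff.1 this)
  have h1 := hD' y (fun h => hy (Or.inl h))
  have h2 := hD₂' y (fun h => hy (Or.inr h))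
  have h3 : φ y = φ x := tendsto_nhds_unique h1 (hD' x hx)
  rw [h3] at h2
  obtain ⟨n, hn⟩ := ((Metric.tendsto_nhds.1 h2) ε hε).exists
  exact hz'' n hn

end Abelian

/-! ### The group -/

/-- The letters. -/
abbrev Om : Type := ℕ × ℝ

/-- The shift of the letters with first component `n` by an element of `ℝ × ℝ`. -/
noncomputable def kk (n : ℕ) (s : ℝ × ℝ) : ℝ := if n % 2 = 0 then s.1 else s.2

lemma kk_add (n : ℕ) (s t : ℝ × ℝ) : kk n (s + t) = kk n s + kk n t := by
  unfold kk
  split_ifs <;> simp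

lemma kk_neg (n : ℕ) (s : ℝ × ℝ) : kk n (-s) = -kk n s := by
  unfold kk
  split_ifs <;> simp

lemma kk_zero (n : ℕ) : kk n 0 = 0 := by
  unfold kk
  split_ifs <;> simp

lemma kk_inj {n : ℕ} {s t : ℝ × ℝ} (h : kk n s = kk n t) (h' : kk (n + 1) s = kk (n + 1) t) :
    s = t := by
  unfold kk at h h'
  rcases Nat.mod_two_eq_zero_or_one n with hn | hn
  · rw [if_pos hn, if_pos hn] at h
    rw [if_neg (by omega), if_neg (by omega)] at h'
    exact Prod.ext h h'
  · rw [if_neg (by omega), if_neg (by omega)] at h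
    rw [if_pos (by omega), if_pos (by omega)] at h'
    exact Prod.ext h' h

/-- The action on letters. -/
noncomputable def act (s : ℝ × ℝ) (o : Om) : Om := (o.1, o.2 + kk o.1 s)

lemma act_act (s t : ℝ × ℝ) (o : Om) : act s (act t o) = act (s + t) o := by
  unfold act
  simp only [kk_add, Prod.mk.injEq, true_and]
  ring

lemma act_zero (o : Om) : act 0 o = o := by
  unfold act
  rw [kk_zero, add_zero]

/-- The action on the free group. -/
noncomputable def mm (s : ℝ × ℝ) : FreeGroup Om →* FreeGroup Om := FreeGroup.map (act s)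

lemma mm_mm (s t : ℝ × ℝ) (w : FreeGroup Om) : mm s (mm t w) = mm (s + t) w := by
  unfold mm
  rw [FreeGroup.map.comp]
  congr 2
  funext o
  exact act_act s t o

lemma mm_zero (w : FreeGroup Om) : mm 0 w = w := by
  unfold mm
  have : act 0 = id := by
    funext o
    exact act_zero o
  rw [this, FreeGroup.map.id]

/-- The group: the pair `(s, w)` stands for the product `s w`. -/
@[ext]
structure GG where
  s : ℝ × ℝ
  w : FreeGroup Om

noncomputable instance : Mul GG := ⟨fun x y => ⟨x.s + y.s, mm (-y.s) x.w * y.w⟩⟩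
instance : One GG := ⟨⟨0, 1⟩⟩
noncomputable instance : Inv GG := ⟨fun x => ⟨-x.s, mm x.s x.w⁻¹⟩⟩

lemma gg_mul (x y : GG) : x * y = ⟨x.s + y.s, mm (-y.s) x.w * y.w⟩ := rfl
lemma gg_one : (1 : GG) = ⟨0, 1⟩ := rfl
lemma gg_inv (x : GG) : x⁻¹ = ⟨-x.s, mm x.s x.w⁻¹⟩ := rfl

noncomputable instance : Group GG :=
  Group.ofLeftAxioms
    (by
      intro x y z
      simp only [gg_mul, map_mul, mm_mm]
      ext1
      · exact add_assoc _ _ _
      · show mm (-z.s + -y.s) x.w * mm (-z.s) y.w * z.w =
          mm (-(y.s + z.s)) x.w * (mm (-z.s) y.w * z.w)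
        rw [mul_assoc]
        congr 3
        abel)
    (by
      intro x
      simp only [gg_mul, gg_one, map_one, one_mul, zero_add])
    (by
      intro x
      simp only [gg_mul, gg_inv, gg_one, mm_mm, neg_add_cancel, mm_zero]
      ext1
      · rfl
      · show x.w⁻¹ * x.w = 1
        rw [inv_mul_cancel])

/-- The elements of `ℝ × ℝ`. -/
def ka (s : ℝ × ℝ) : GG := ⟨s, 1⟩

/-- The elements of the free group. -/
def fr (w : FreeGroup Om) : GG := ⟨0, w⟩

lemma ka_mul (s t : ℝ × ℝ) : ka s * ka t = ka (s + t) := by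
  unfold ka
  rw [gg_mul, map_one, one_mul]

lemma fr_mul (w v : FreeGroup Om) : fr w * fr v = fr (w * v) := by
  unfold fr
  rw [gg_mul, neg_zero, mm_zero, add_zero]

lemma ka_fr (x : GG) : x = ka x.s * fr x.w := by
  unfold ka fr
  rw [gg_mul, map_one, one_mul, add_zero]

lemma ka_comm (o : Om) (s : ℝ × ℝ) (h : kk o.1 s = 0) :
    ka s * fr (FreeGroup.of o) = fr (FreeGroup.of o) * ka s := by
  unfold ka fr
  rw [gg_mul, gg_mul, map_one, one_mul, add_zero, zero_add, mul_one]
  unfold mm
  rw [FreeGroup.map.of]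
  congr 2
  unfold act
  rw [kk_neg, h, neg_zero, add_zero]

/-! ### Slowly oscillating functions on the group -/

section Slow

variable {f : GG → ℝ}

lemma ka_inj (x : GG) : Function.Injective (fun s : ℝ × ℝ => ka s * x) := by
  intro s t h
  have h1 : ka s = ka t := mul_right_cancel h
  exact congrArg GG.s h1

instance : Uncountable (ℝ × ℝ) := by
  have h : Function.Injective (fun x : ℝ => (x, (0 : ℝ))) := by
    intro x y h
    exact congrArg Prod.fst h
  exact h.uncountable

lemma lim_exists (hf : SlowlyOscillating f) (x : GG) :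
    ∃ c : ℝ, Tendsto (fun s : ℝ × ℝ => f (ka s * x)) cofinite (𝓝 c) := by
  apply lemB
  intro a
  have h1 := (so_tendsto hf (ka a)).comp (ka_inj x).tendsto_cofinite
  refine h1.congr (fun s => ?_)
  show f (ka a * (ka s * x)) - f (ka s * x) = _
  rw [← mul_assoc, ka_mul]

lemma lim_ka (x : GG) (t : ℝ × ℝ) {c : ℝ}
    (hc : Tendsto (fun s : ℝ × ℝ => f (ka s * x)) cofinite (𝓝 c)) :
    Tendsto (fun s : ℝ × ℝ => f (ka s * (ka t * x))) cofinite (𝓝 c) := by
  have h1 : Function.Injective (fun s : ℝ × ℝ => s + t) := add_left_injective t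
  refine (hc.comp h1.tendsto_cofinite).congr (fun s => ?_)
  show f (ka (s + t) * x) = _
  rw [← mul_assoc, ka_mul]

lemma lim_of (hf : SlowlyOscillating f) (x : GG) (o : Om) {c d : ℝ}
    (hc : Tendsto (fun s : ℝ × ℝ => f (ka s * x)) cofinite (𝓝 c))
    (hd : Tendsto (fun s : ℝ × ℝ => f (ka s * (fr (FreeGroup.of o) * x))) cofinite (𝓝 d)) :
    c = d := by
  let z : ℕ → ℝ × ℝ := fun j => if o.1 % 2 = 0 then (0, (j : ℝ)) else ((j : ℝ), 0)
  have hz : Function.Injective z := by
    intro i j hij
    simp only [z] at hij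
    split_ifs at hij
    · have h : (i : ℝ) = j := congrArg Prod.snd hij
      exact_mod_cast h
    · have h : (i : ℝ) = j := congrArg Prod.fst hij
      exact_mod_cast h
  have hz0 : ∀ j, kk o.1 (z j) = 0 := by
    intro j
    simp only [kk, z]
    split_ifs <;> rfl
  have ht : Tendsto z atTop cofinite := by
    rw [← Nat.cofinite_eq_atTop]
    exact hz.tendsto_cofinite
  have h1 := hc.comp ht
  have h2 := hd.comp ht
  have h3 := (so_tendsto hf (fr (FreeGroup.of o))).comp ((ka_inj x).tendsto_cofinite.comp ht)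
  have h4 : Tendsto (fun j => f (ka (z j) * (fr (FreeGroup.of o) * x))) atTop (𝓝 (0 + c)) := by
    refine (h3.add h1).congr (fun j => ?_)
    show f (fr (FreeGroup.of o) * (ka (z j) * x)) - f (ka (z j) * x) + f (ka (z j) * x) = _
    rw [sub_add_cancel, ← mul_assoc, ← mul_assoc, ka_comm o _ (hz0 j)]
  rw [zero_add] at h4
  exact tendsto_nhds_unique h4 h2

lemma lim_const (hf : SlowlyOscillating f) :
    ∃ c : ℝ, ∀ x : GG, Tendsto (fun s : ℝ × ℝ => f (ka s * x)) cofinite (𝓝 c) := by
  choose c hc using lim_exists hf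
  have hka : ∀ x t, c (ka t * x) = c x := by
    intro x t
    exact tendsto_nhds_unique (hc _) (lim_ka x t (hc x))
  have hof : ∀ x o, c (fr (FreeGroup.of o) * x) = c x := by
    intro x o
    exact (lim_of hf x o (hc x) (hc _)).symm
  have hfr : ∀ (w : FreeGroup Om) (x : GG), c (fr w * x) = c x := by
    intro w
    induction w using FreeGroup.induction_on with
    | C1 =>
        intro x
        have : fr 1 = 1 := rfl
        rw [this, one_mul]
    | of o =>
        intro x
        exact hof x o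
    | inv_of o _ =>
        intro x
        have h1 := hof (fr (FreeGroup.of o)⁻¹ * x) o
        rw [← mul_assoc, fr_mul, mul_inv_cancel] at h1
        have h2 : fr 1 = 1 := rfl
        rw [h2, one_mul] at h1
        exact h1.symm
    | mul u v hu hv =>
        intro x
        rw [← fr_mul, mul_assoc, hu, hv]
  refine ⟨c 1, fun x => ?_⟩
  have h1 : c x = c 1 := by
    have h2 : x = ka x.s * (fr x.w * 1) := by
      rw [mul_one]
      exact ka_fr x
    rw [h2, hka, hfr]
  rw [← h1]
  exact hc x

lemma so_bounded (hf : SlowlyOscillating f) : BoundedOffFinite f := by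
  obtain ⟨c, hc⟩ := lim_const hf
  refine ⟨{x | ¬ dist (f x) c < 1}, ?_, |c| + 1, ?_⟩
  · by_contra hS
    have hS' : {x | ¬ dist (f x) c < 1}.Infinite := hS
    let z : ℕ → GG := fun n => (hS'.natEmbedding _ n : GG)
    have hz : Function.Injective z := by
      intro m n hmn
      exact (hS'.natEmbedding _).injective (Subtype.ext hmn)
    have hz' : ∀ n, ¬ dist (f (z n)) c < 1 := fun n => (hS'.natEmbedding _ n).2
    have h1 : (⋃ n, {s : ℝ × ℝ | ¬ dist (f (ka s * z n)) c < 1 / 2}).Countable := by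
      apply Set.countable_iUnion
      intro n
      have := (Metric.tendsto_nhds.1 (hc (z n))) (1 / 2) (by norm_num)
      exact (Filter.eventually_cofinite.1 this).countable
    obtain ⟨s, hs⟩ : ∃ s, s ∉ (⋃ n, {s : ℝ × ℝ | ¬ dist (f (ka s * z n)) c < 1 / 2}) := by
      by_contra hcon
      have hcon' : ∀ s, s ∈ (⋃ n, {s : ℝ × ℝ | ¬ dist (f (ka s * z n)) c < 1 / 2}) := by
        intro s
        by_contra hs
        exact hcon ⟨s, hs⟩
      have : (Set.univ : Set (ℝ × ℝ)).Countable := h1.mono (fun x _ => hcon' x)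
      exact not_countable (Set.countable_univ_iff.1 this)
    have h2 : ∀ n, dist (f (ka s * z n)) c < 1 / 2 := by
      intro n
      by_contra hcon
      exact hs (Set.mem_iUnion.2 ⟨n, hcon⟩)
    have ht : Tendsto z atTop cofinite := by
      rw [← Nat.cofinite_eq_atTop]
      exact hz.tendsto_cofinite
    have h3 := (so_tendsto hf (ka s)).comp ht
    obtain ⟨n, hn⟩ := ((Metric.tendsto_nhds.1 h3) (1 / 2) (by norm_num)).exists
    have h4 : |f (ka s * z n) - f (z n)| < 1 / 2 := by
      have : dist (f (ka s * z n) - f (z n)) 0 < 1 / 2 := hn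
      rwa [Real.dist_eq, sub_zero] at this
    have h5 := h2 n
    rw [Real.dist_eq] at h5
    apply hz' n
    rw [Real.dist_eq]
    rw [abs_lt] at h4 h5 ⊢
    constructor <;> linarith [h4.1, h4.2, h5.1, h5.2]
  · intro x hx
    have h1 : dist (f x) c < 1 := by
      by_contra hcon
      exact hx hcon
    rw [Real.dist_eq] at h1
    have h2 : |f x| ≤ |f x - c| + |c| := by
      have := abs_add_le (f x - c) c
      rwa [sub_add_cancel] at this
    linarith

end Slow

/-! ### An unbounded boundedly oscillating function -/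

/-- The letters of the ray. -/
def ell (n : ℕ) : Om × Bool := ((n, 0), true)

/-- The initial parts of the ray, written backwards. -/
def R : ℕ → List (Om × Bool)
  | 0 => []
  | n + 1 => ell n :: R n

/-- The element `w` lies beyond the `n`-th vertex of the ray. -/
def Bey (n : ℕ) (w : FreeGroup Om) : Prop := R n <:+ w.toWord

lemma R_length (n : ℕ) : (R n).length = n := by
  induction n with
  | zero => rfl
  | succ n ih => rw [R, List.length_cons, ih]

lemma bey_zero (w : FreeGroup Om) : Bey 0 w := List.nil_suffix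

lemma bey_of_succ {n : ℕ} {w : FreeGroup Om} (h : Bey (n + 1) w) : Bey n w :=
  (List.suffix_cons _ _).trans h

lemma bey_mono {m n : ℕ} (hmn : m ≤ n) {w : FreeGroup Om} (h : Bey n w) : Bey m w := by
  induction hmn with
  | refl => exact h
  | step _ ih => exact ih (bey_of_succ h)

lemma bey_le {n : ℕ} {w : FreeGroup Om} (h : Bey n w) : n ≤ w.toWord.length := by
  have := h.length_le
  rwa [R_length] at this

open Classical in
/-- The function on the free group. -/
noncomputable def H (w : FreeGroup Om) : ℕ := Nat.findGreatest (fun n => Bey n w) w.toWord.length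

lemma bey_iff (n : ℕ) (w : FreeGroup Om) : Bey n w ↔ n ≤ H w := by
  classical
  constructor
  · intro h
    exact Nat.le_findGreatest (bey_le h) h
  · intro h
    have h1 : Bey (H w) w :=
      Nat.findGreatest_spec (P := fun n => Bey n w) (Nat.zero_le _) (bey_zero w)
    exact bey_mono h h1

lemma word_step (x : Om × Bool) (w : FreeGroup Om) :
    (FreeGroup.mk [x] * w).toWord = x :: w.toWord ∨
      w.toWord = (x.1, !x.2) :: (FreeGroup.mk [x] * w).toWord := by
  have h1 : (FreeGroup.mk [x] * w).toWord = FreeGroup.reduce (x :: w.toWord) := by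
    rw [FreeGroup.toWord_mul, FreeGroup.toWord_mk, FreeGroup.reduce_singleton]
    rfl
  rw [h1, FreeGroup.reduce.cons, FreeGroup.reduce_toWord]
  rcases hw : w.toWord with _ | ⟨y, ys⟩
  · left
    rfl
  · by_cases hxy : x.1 = y.1 ∧ x.2 = !y.2
    · right
      simp only [if_pos hxy]
      congr 1
      ext1
      · exact hxy.1.symm
      · rw [hxy.2, Bool.not_not]
    · left
      simp only [if_neg hxy]

lemma bey_step {n : ℕ} {x : Om × Bool} {w : FreeGroup Om}
    (h : Bey (n + 1) (FreeGroup.mk [x] * w)) (h' : ¬ Bey (n + 1) w) :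
    w.toWord = R n ∧ x = ell n := by
  rcases word_step x w with h1 | h1
  · unfold Bey at h
    rw [h1] at h
    rcases List.suffix_cons_iff.1 h with h2 | h2
    · have h3 : ell n :: R n = x :: w.toWord := h2
      injection h3 with h4 h5
      exact ⟨h5.symm, h4.symm⟩
    · exact absurd h2 h'
  · exfalso
    apply h'
    unfold Bey at h ⊢
    rw [h1]
    exact h.trans (List.suffix_cons _ _)

lemma bey_path {n : ℕ} (L : List (Om × Bool)) (u : FreeGroup Om)
    (h : Bey (n + 1) (FreeGroup.mk L * u)) (h' : ¬ Bey (n + 1) u) :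
    ∃ A D, L = A ++ ell n :: D ∧ (FreeGroup.mk D * u).toWord = R n := by
  induction L with
  | nil =>
      exfalso
      rw [← FreeGroup.one_eq_mk, one_mul] at h
      exact h' h
  | cons x L ih =>
      by_cases h1 : Bey (n + 1) (FreeGroup.mk L * u)
      · obtain ⟨A, D, h2, h3⟩ := ih h1
        exact ⟨x :: A, D, by rw [h2]; rfl, h3⟩
      · have h2 : FreeGroup.mk (x :: L) * u = FreeGroup.mk [x] * (FreeGroup.mk L * u) := by
          rw [← mul_assoc, FreeGroup.mul_mk]
          rfl
        rw [h2] at h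
        obtain ⟨h3, h4⟩ := bey_step h h1
        exact ⟨[], L, by rw [h4]; rfl, h3⟩

/-- The action on signed letters. -/
noncomputable def sact (s : ℝ × ℝ) (x : Om × Bool) : Om × Bool := (act s x.1, x.2)

lemma sact_eq {s : ℝ × ℝ} {y : Om × Bool} {n : ℕ} (h : sact (-s) y = ell n) :
    y = ((n, kk n s), true) := by
  unfold sact act ell at h
  have h1 := congrArg (fun z => z.1.1) h
  have h2 := congrArg (fun z => z.1.2) h
  have h3 := congrArg (fun z => z.2) h
  simp only at h1 h2 h3
  rw [h1, kk_neg] at h2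
  ext1
  · ext1
    · exact h1
    · show y.1.2 = kk n s
      linarith
  · exact h3

lemma split_map {s : ℝ × ℝ} {L A D : List (Om × Bool)} {n : ℕ}
    (h : L.map (sact (-s)) = A ++ ell n :: D) :
    A.length < L.length ∧ L[A.length]? = some ((n, kk n s), true) ∧
      D = (L.drop (A.length + 1)).map (sact (-s)) := by
  refine ⟨?_, ?_, ?_⟩
  · have := congrArg List.length h
    rw [List.length_map, List.length_append, List.length_cons] at this
    omega
  · have h1 := congrArg (fun z => z[A.length]?) h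
    simp only [List.getElem?_map, List.getElem?_append_right (le_refl A.length), Nat.sub_self,
      List.getElem?_cons_zero, Option.map_eq_some_iff] at h1
    obtain ⟨y, hy, hy'⟩ := h1
    rw [hy, sact_eq hy']
  · rw [List.map_drop, h]
    have h1 : A ++ ell n :: D = (A ++ [ell n]) ++ D := by simp
    have h2 : A.length + 1 = (A ++ [ell n]).length := by simp
    rw [h1, h2]
    exact List.drop_left.symm

lemma mul_w (g x : GG) :
    (g * x).w = FreeGroup.mk (g.w.toWord.map (sact (-x.s))) * x.w := by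
  have h1 : (g * x).w = mm (-x.s) g.w * x.w := rfl
  rw [h1]
  congr 1
  have h2 : FreeGroup.mk g.w.toWord = g.w := FreeGroup.mk_toWord
  conv_lhs => rw [← h2]
  exact FreeGroup.map.mk

/-- The elements at which the function increases by at least two. -/
def Bad (g : GG) : Set GG := {x | H x.w + 2 ≤ H (g * x).w}

/-- A piece of the set of bad elements. -/
def Piece (L : List (Om × Bool)) (i j : ℕ) : Set GG :=
  {x | ∃ n, L[i]? = some ((n, kk n x.s), true) ∧
    L[j]? = some ((n + 1, kk (n + 1) x.s), true) ∧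
    (FreeGroup.mk ((L.drop (i + 1)).map (sact (-x.s))) * x.w).toWord = R n}

lemma piece_subsingleton (L : List (Om × Bool)) (i j : ℕ) : (Piece L i j).Subsingleton := by
  rintro x ⟨n, h1, h2, h3⟩ y ⟨m, h4, h5, h6⟩
  rw [h1] at h4
  rw [h2] at h5
  have h7 : ((n, kk n x.s) : Om) = (m, kk m y.s) := congrArg Prod.fst (Option.some.inj h4)
  have h8 : ((n + 1, kk (n + 1) x.s) : Om) = (m + 1, kk (m + 1) y.s) :=
    congrArg Prod.fst (Option.some.inj h5)
  have hnm : n = m := congrArg Prod.fst h7
  subst hnm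
  have hs : x.s = y.s := kk_inj (congrArg Prod.snd h7) (congrArg Prod.snd h8)
  ext1
  · exact hs
  · rw [← h6, hs] at h3
    exact mul_left_cancel (FreeGroup.toWord_injective h3)

lemma bad_finite (g : GG) : (Bad g).Finite := by
  have h1 : Bad g ⊆ ⋃ i : Fin g.w.toWord.length, ⋃ j : Fin g.w.toWord.length,
      Piece g.w.toWord i j := by
    intro x hx
    have hx' : H x.w + 2 ≤ H (g * x).w := hx
    have h2 : ¬ Bey (H x.w + 1) x.w := by
      rw [bey_iff]
      omega
    have h3 : ¬ Bey (H x.w + 1 + 1) x.w := by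
      rw [bey_iff]
      omega
    have h4 : Bey (H x.w + 1) (g * x).w := by
      rw [bey_iff]
      omega
    have h5 : Bey (H x.w + 1 + 1) (g * x).w := by
      rw [bey_iff]
      omega
    rw [mul_w] at h4 h5
    obtain ⟨A, D, h6, h7⟩ := bey_path _ _ h4 h2
    obtain ⟨A', D', h8, _⟩ := bey_path _ _ h5 h3
    obtain ⟨h9, h10, h11⟩ := split_map h6
    obtain ⟨h12, h13, _⟩ := split_map h8
    refine Set.mem_iUnion.2 ⟨⟨A.length, h9⟩, Set.mem_iUnion.2 ⟨⟨A'.length, h12⟩, ?_⟩⟩
    refine ⟨H x.w, h10, h13, ?_⟩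
    rw [← h7, h11]
  exact (Set.finite_iUnion (fun i => Set.finite_iUnion
    (fun j => (piece_subsingleton _ _ _).finite))).subset h1

/-- The exceptional set of an element. -/
def Exc (g : GG) : Set GG := Bad g ∪ (fun x => g * x) ⁻¹' Bad g⁻¹

lemma exc_finite (g : GG) : (Exc g).Finite :=
  (bad_finite g).union ((bad_finite g⁻¹).preimage (mul_right_injective g).injOn)

lemma exc_spec (g x : GG) (hx : x ∉ Exc g) : |(H (g * x).w : ℝ) - H x.w| ≤ 1 := by
  have h1 : ¬ (H x.w + 2 ≤ H (g * x).w) := fun h => hx (Or.inl h)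
  have h2 : ¬ (H (g * x).w + 2 ≤ H x.w) := by
    intro h
    apply hx
    right
    show H (g * x).w + 2 ≤ H (g⁻¹ * (g * x)).w
    rwa [inv_mul_cancel_left]
  have h3 : (H (g * x).w : ℝ) ≤ H x.w + 1 := by
    have : H (g * x).w ≤ H x.w + 1 := by omega
    exact_mod_cast this
  have h4 : (H x.w : ℝ) ≤ H (g * x).w + 1 := by
    have : H x.w ≤ H (g * x).w + 1 := by omega
    exact_mod_cast this
  rw [abs_le]
  constructor <;> linarith

lemma bo : BoundedlyOscillating (fun x : GG => (H x.w : ℝ)) := by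
  refine ⟨3, by norm_num, ?_⟩
  intro F hF
  refine ⟨⋃ g ∈ F, Exc g, hF.biUnion (fun g _ => exc_finite g), ?_⟩
  intro x hx
  have h1 : ∀ y ∈ Ball F x, |(H y.w : ℝ) - H x.w| ≤ 1 := by
    rintro y (rfl | ⟨g, hg, rfl⟩)
    · simp
    · apply exc_spec
      intro h
      exact hx (Set.mem_biUnion hg h)
  have h2 : Metric.diam ((fun x : GG => (H x.w : ℝ)) '' Ball F x) ≤ 2 := by
    apply Metric.diam_le_of_forall_dist_le (by norm_num)
    rintro _ ⟨y, hy, rfl⟩ _ ⟨z, hz, rfl⟩
    have h3 := h1 y hy
    have h4 := h1 z hz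
    show dist (H y.w : ℝ) (H z.w : ℝ) ≤ 2
    rw [Real.dist_eq]
    rw [abs_le] at h3 h4 ⊢
    constructor <;> linarith [h3.1, h3.2, h4.1, h4.2]
  linarith

lemma R_reduced (n : ℕ) : FreeGroup.reduce (R n) = R n := by
  induction n with
  | zero => rfl
  | succ n ih =>
      show FreeGroup.reduce (ell n :: R n) = ell n :: R n
      rw [FreeGroup.reduce.cons, ih]
      cases n with
      | zero => rfl
      | succ n =>
          show (if (ell (n + 1)).1 = (ell n).1 ∧ (ell (n + 1)).2 = !(ell n).2 then R n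
            else ell (n + 1) :: ell n :: R n) = _
          rw [if_neg]
          · rfl
          · rintro ⟨_, h⟩
            cases h

lemma unbounded : ¬ BoundedOffFinite (fun x : GG => (H x.w : ℝ)) := by
  rintro ⟨B, hB, M, hM⟩
  have h1 : ∀ n, n ≤ H (fr (FreeGroup.mk (R n))).w := by
    intro n
    rw [← bey_iff]
    show R n <:+ (FreeGroup.mk (R n)).toWord
    rw [FreeGroup.toWord_mk, R_reduced]
  obtain ⟨N, hN⟩ : ∃ N : ℕ, ∀ x ∈ B, H x.w ≤ N := by
    obtain ⟨N, hN⟩ := (hB.image (fun x : GG => H x.w)).bddAbove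
    exact ⟨N, fun x hx => hN ⟨x, hx, rfl⟩⟩
  obtain ⟨K, hK⟩ := exists_nat_gt M
  have h2 := h1 (N + K + 1)
  by_cases h3 : fr (FreeGroup.mk (R (N + K + 1))) ∈ B
  · have := hN _ h3
    omega
  · have h4 := hM _ h3
    have h5 : ((N + K + 1 : ℕ) : ℝ) ≤ H (fr (FreeGroup.mk (R (N + K + 1)))).w := by
      exact_mod_cast h2
    have h6 := (le_abs_self _).trans h4
    push_cast at h5
    have h7 : (0 : ℝ) ≤ N := Nat.cast_nonneg N
    have h8 : ((H (fr (FreeGroup.mk (R (N + K + 1)))).w : ℕ) : ℝ) ≤ M := h6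
    linarith

/-- There is a group whose finitary ballean is so-bounded but not bo-bounded. -/
theorem result : ∃ (G : Type) (_ : Group G), SoBounded G ∧ ¬ BoBounded G :=
  ⟨GG, inferInstance, fun _ hf => so_bounded hf, fun h => unbounded (h _ bo)⟩

end Pool.Agent.Results.MP_769d7c_al.SoNotBo
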